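import Mathlib

/-!
# Balanced 4-way partitions of the five-point stencil mesh that are cheaper than the table
-/

set_option autoImplicit false
set_option maxRecDepth 100000

namespace Pool.Agent.Results.MP_d1f6bb_co.BetterPartitions

/-- The points of the `X × X` mesh. -/
abbrev Mesh (X : ℕ) : Type := Fin X × Fin X

/-- `w` belongs to the net `N[v]`: `w = v` or `w` is a neighbour of `v` (five-point stencil). -/
def InNet {X : ℕ} (v w : Mesh X) : Prop :=
  |((v.1 : ℕ) : ℤ) - ((w.1 : ℕ) : ℤ)| + |((v.2 : ℕ) : ℤ) - ((w.2 : ℕ) : ℤ)| ≤ 1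

open Classical in
/-- The number of parts that meet the net `N[v]`. -/
noncomputable def lam {X : ℕ} (c : Mesh X → Fin 4) (v : Mesh X) : ℕ :=
  (Finset.univ.filter fun k => ∃ w, InNet v w ∧ c w = k).card

/-- The cost (total communication volume) of the partition with colouring `c`. -/
noncomputable def cost {X : ℕ} (c : Mesh X → Fin 4) : ℕ := ∑ v, (lam c v - 1)

/-- The partition is perfectly balanced: every part has `X² / 4` points. -/
def Balanced {X : ℕ} (c : Mesh X → Fin 4) : Prop :=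
  ∀ k, 4 * (Finset.univ.filter fun v => c v = k).card = X ^ 2

/-- The minimum cost of a perfectly balanced 4-way partition of the `X × X` mesh. -/
noncomputable def V (X : ℕ) : ℕ := sInf {m | ∃ c : Mesh X → Fin 4, Balanced c ∧ cost c = m}

/-! ### Partitions with intervals in the rows -/

section Rows

variable {X : ℕ} (A B C : ℕ → ℕ)

/-- The breakpoints. -/
def bd (X : ℕ) (k x : ℕ) : ℕ :=
  match k with
  | 0 => 0
  | 1 => A x
  | 2 => B x
  | 3 => C x
  | _ => X

/-- The colouring with breakpoints `A`, `B`, `C`. -/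
def color (v : Mesh X) : Fin 4 :=
  if (v.2 : ℕ) < A v.1 then 0 else if (v.2 : ℕ) < B v.1 then 1 else if (v.2 : ℕ) < C v.1 then 2 else 3

theorem color_eq_iff (h : ∀ x < X, A x ≤ B x ∧ B x ≤ C x ∧ C x ≤ X) (v : Mesh X) (k : Fin 4) :
    color A B C v = k ↔ bd A B C X k v.1 ≤ v.2 ∧ (v.2 : ℕ) < bd A B C X (k + 1) v.1 := by
  obtain ⟨h1, h2, h3⟩ := h v.1 v.1.2
  have h4 := v.2.2
  unfold color
  fin_cases k <;> simp only [bd] <;> split_ifs <;> simp <;> omega

/-- The cost of one row and one part. -/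
def rowCost (X : ℕ) (k x : ℕ) : ℕ :=
  let l := bd A B C X k x
  let u := bd A B C X (k + 1) x
  let l1 := if x = 0 then 0 else bd A B C X k (x - 1)
  let u1 := if x = 0 then 0 else bd A B C X (k + 1) (x - 1)
  let l2 := if x + 1 < X then bd A B C X k (x + 1) else 0
  let u2 := if x + 1 < X then bd A B C X (k + 1) (x + 1) else 0
  let mL := min (min l (if l1 < u1 then l1 else l)) (min (if l2 < u2 then l2 else l) (if l < u then l - 1 else l))
  let mR := max (max u (if l1 < u1 then u1 else u)) (max (if l2 < u2 then u2 else u) (if l < u then min (u + 1) X else u))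
  (l - mL) + (mR - u)

/-- The sum of a function below `n`. -/
def sumBelow (f : ℕ → ℕ) : ℕ → ℕ
  | 0 => 0
  | n + 1 => f n + sumBelow f n

theorem sumBelow_eq (f : ℕ → ℕ) (n : ℕ) : sumBelow f n = ∑ x ∈ Finset.range n, f x := by
  induction n with
  | zero => rfl
  | succ n ih => rw [sumBelow, ih, Finset.sum_range_succ, add_comm]

theorem row_card (l u : ℕ) (hu : u ≤ X) :
    (Finset.univ.filter fun y : Fin X => l ≤ (y : ℕ) ∧ (y : ℕ) < u).card = u - l := by
  rw [← Finset.card_map Fin.valEmbedding]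
  have : (Finset.univ.filter fun y : Fin X => l ≤ (y : ℕ) ∧ (y : ℕ) < u).map Fin.valEmbedding =
      Finset.Ico l u := by
    ext y
    simp only [Finset.mem_map, Finset.mem_filter, Finset.mem_univ, true_and, Fin.valEmbedding_apply,
      Finset.mem_Ico]
    constructor
    · rintro ⟨y, hy, rfl⟩; exact hy
    · intro hy; exact ⟨⟨y, by omega⟩, hy, rfl⟩
  rw [this, Nat.card_Ico]

open Classical in
theorem row_cost (h : ∀ x < X, A x ≤ B x ∧ B x ≤ C x ∧ C x ≤ X) (k : Fin 4) (x : Fin X) :
    (Finset.univ.filter fun y : Fin X => color A B C (x, y) ≠ k ∧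
      ∃ w, InNet (x, y) w ∧ color A B C w = k).card ≤ rowCost A B C X k x := by
  have hbd : ∀ z < X, bd A B C X k z ≤ bd A B C X (k + 1) z ∧ bd A B C X (k + 1) z ≤ X := by
    intro z hz
    obtain ⟨h1, h2, h3⟩ := h z hz
    fin_cases k <;> simp only [bd] <;> omega
  rw [← Finset.card_map Fin.valEmbedding]
  unfold rowCost
  simp only
  set l := bd A B C X k x with hl
  set u := bd A B C X (k + 1) x with hu
  set l1 := if (x : ℕ) = 0 then 0 else bd A B C X k (x - 1) with hl1
  set u1 := if (x : ℕ) = 0 then 0 else bd A B C X (k + 1) (x - 1) with hu1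
  set l2 := if (x : ℕ) + 1 < X then bd A B C X k (x + 1) else 0 with hl2
  set u2 := if (x : ℕ) + 1 < X then bd A B C X (k + 1) (x + 1) else 0 with hu2
  set mL := min (min l (if l1 < u1 then l1 else l)) (min (if l2 < u2 then l2 else l) (if l < u then l - 1 else l)) with hmL
  set mR := max (max u (if l1 < u1 then u1 else u)) (max (if l2 < u2 then u2 else u) (if l < u then min (u + 1) X else u)) with hmR
  have hsub : (Finset.univ.filter fun y : Fin X => color A B C (x, y) ≠ k ∧
      ∃ w, InNet (x, y) w ∧ color A B C w = k).map Fin.valEmbedding ⊆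
      Finset.Ico mL l ∪ Finset.Ico u mR := by
    intro y hy
    simp only [Finset.mem_map, Finset.mem_filter, Finset.mem_univ, true_and,
      Fin.valEmbedding_apply] at hy
    obtain ⟨y, ⟨hne, ⟨x', y'⟩, hnet, hw⟩, rfl⟩ := hy
    rw [Ne, color_eq_iff A B C h] at hne
    rw [color_eq_iff A B C h] at hw
    simp only at hne hw
    simp only [InNet] at hnet
    rw [← hl, ← hu] at hne
    have hy := y.2
    have hy' := y'.2
    have hx := x.2
    have hx' := x'.2
    have hb := hbd x x.2
    rw [← hl, ← hu] at hb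
    rw [Finset.mem_union, Finset.mem_Ico, Finset.mem_Ico]
    have hcases : (x' = x ∧ ((y' : ℕ) = y ∨ (y' : ℕ) = y + 1 ∨ (y' : ℕ) + 1 = y)) ∨
        ((x' : ℕ) + 1 = x ∧ (y' : ℕ) = y) ∨ ((x' : ℕ) = x + 1 ∧ (y' : ℕ) = y) := by
      have e1 : x' = x ↔ (x' : ℕ) = x := Fin.ext_iff
      rw [e1]
      rcases abs_cases (((x : ℕ) : ℤ) - ((x' : ℕ) : ℤ)) with ⟨p1, p2⟩ | ⟨p1, p2⟩ <;>
      rcases abs_cases (((y : ℕ) : ℤ) - ((y' : ℕ) : ℤ)) with ⟨q1, q2⟩ | ⟨q1, q2⟩ <;>
      rw [p1, q1] at hnet <;> omega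
    rcases hcases with ⟨rfl, h1⟩ | ⟨h1, h2⟩ | ⟨h1, h2⟩
    · rw [← hl, ← hu] at hw
      have hlt : l < u := by omega
      rw [if_pos hlt] at hmL hmR
      rcases h1 with h1 | h1 | h1
      · omega
      · left; omega
      · right; omega
    · have hx0 : (x : ℕ) ≠ 0 := by omega
      rw [if_neg hx0] at hl1 hu1
      have e : (x : ℕ) - 1 = x' := by omega
      rw [e] at hl1 hu1
      rw [← hl1, ← hu1] at hw
      have hlt : l1 < u1 := by omega
      rw [if_pos hlt] at hmL hmR
      omega
    · have hx0 : (x : ℕ) + 1 < X := by omega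
      rw [if_pos hx0] at hl2 hu2
      rw [← h1] at hl2 hu2
      rw [← hl2, ← hu2] at hw
      have hlt : l2 < u2 := by omega
      rw [if_pos hlt] at hmL hmR
      omega
  refine (Finset.card_le_card hsub).trans ((Finset.card_union_le _ _).trans ?_)
  rw [Nat.card_Ico, Nat.card_Ico]

open Classical in
theorem cost_le (h : ∀ x < X, A x ≤ B x ∧ B x ≤ C x ∧ C x ≤ X) :
    cost (X := X) (color A B C) ≤
      sumBelow (fun x => rowCost A B C X 0 x + rowCost A B C X 1 x + rowCost A B C X 2 x +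
        rowCost A B C X 3 x) X := by
  have h1 : ∀ v : Mesh X, lam (color A B C) v - 1 =
      ∑ k : Fin 4, if (color A B C v ≠ k ∧ ∃ w, InNet v w ∧ color A B C w = k) then 1 else 0 := by
    intro v
    rw [← Finset.card_filter]
    unfold lam
    have hmem : color A B C v ∈ (Finset.univ.filter fun k => ∃ w, InNet v w ∧ color A B C w = k) := by
      rw [Finset.mem_filter]
      exact ⟨Finset.mem_univ _, v, by simp [InNet], rfl⟩
    rw [← Finset.card_erase_of_mem hmem]
    congr 1
    ext k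
    simp only [Finset.mem_erase, Finset.mem_filter, Finset.mem_univ, true_and]
    constructor
    · rintro ⟨a, b⟩; exact ⟨fun h => a h.symm, b⟩
    · rintro ⟨a, b⟩; exact ⟨fun h => a h.symm, b⟩
  unfold cost
  rw [Finset.sum_congr rfl fun v _ => h1 v, Fintype.sum_prod_type, sumBelow_eq,
    Finset.sum_range]
  refine Finset.sum_le_sum fun x _ => ?_
  rw [Finset.sum_comm]
  rw [Fin.sum_univ_four]
  have h2 : ∀ k : Fin 4, (∑ y : Fin X, if (color A B C (x, y) ≠ k ∧
      ∃ w, InNet (x, y) w ∧ color A B C w = k) then 1 else 0) ≤ rowCost A B C X k x := by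
    intro k
    rw [← Finset.card_filter]
    exact row_cost A B C h k x
  exact Nat.add_le_add (Nat.add_le_add (Nat.add_le_add (h2 0) (h2 1)) (h2 2)) (h2 3)

theorem part_card (h : ∀ x < X, A x ≤ B x ∧ B x ≤ C x ∧ C x ≤ X) (k : Fin 4) :
    (Finset.univ.filter fun v : Mesh X => color A B C v = k).card =
      sumBelow (fun x => bd A B C X (k + 1) x - bd A B C X k x) X := by
  rw [Finset.card_filter, Fintype.sum_prod_type, sumBelow_eq, Finset.sum_range]
  refine Finset.sum_congr rfl fun x _ => ?_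
  rw [← Finset.card_filter]
  have hbd : bd A B C X (k + 1) x ≤ X := by
    obtain ⟨h1, h2, h3⟩ := h x x.2
    fin_cases k <;> simp only [bd] <;> omega
  rw [← row_card (X := X) _ _ hbd]
  congr 1
  ext y
  simp only [Finset.mem_filter, Finset.mem_univ, true_and]
  rw [color_eq_iff A B C h]

end Rows

/-! ### The partitions -/

/-- The staircase: `s - x` points in row `x`, and one more in the rows from `a` to `a + t - 1`. -/
def stair (s a t x : ℕ) : ℕ := (s - x) + if x ≤ s ∧ a ≤ x ∧ x < a + t then 1 else 0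

/-- First breakpoint: the corner part at the origin. -/
def bA (s t x : ℕ) : ℕ := stair s 0 t x

/-- Last breakpoint: the corner part at the opposite corner. -/
def bC (X s a t x : ℕ) : ℕ := X - stair s a t (X - 1 - x)

/-- Middle breakpoint: the diagonal. -/
def bB (X s a t x : ℕ) : ℕ := max (bA s t x) (min (bC X s a t x) x)

/-- All the checks for the partition with parameters `X`, `s`, `t`, `a` and cost bound `m`. -/
def check (X s t a m : ℕ) : Bool :=
  Nat.beq (sumBelow (fun x => if Nat.ble (bA s t x) (bB X s a t x) && Nat.ble (bB X s a t x) (bC X s a t x)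
    && Nat.ble (bC X s a t x) X then 0 else 1) X) 0 &&
  Nat.beq (4 * sumBelow (fun x => bA s t x - 0) X) (X ^ 2) &&
  Nat.beq (4 * sumBelow (fun x => bB X s a t x - bA s t x) X) (X ^ 2) &&
  Nat.beq (4 * sumBelow (fun x => bC X s a t x - bB X s a t x) X) (X ^ 2) &&
  Nat.beq (4 * sumBelow (fun x => X - bC X s a t x) X) (X ^ 2) &&
  Nat.ble (sumBelow (fun x => rowCost (bA s t) (bB X s a t) (bC X s a t) X 0 x +
    rowCost (bA s t) (bB X s a t) (bC X s a t) X 1 x + rowCost (bA s t) (bB X s a t) (bC X s a t) X 2 x +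
    rowCost (bA s t) (bB X s a t) (bC X s a t) X 3 x) X) m

theorem of_check {X s t a m : ℕ} (h : check X s t a m = true) :
    ∃ c : Mesh X → Fin 4, Balanced c ∧ cost c ≤ m := by
  simp only [check, Bool.and_eq_true] at h
  obtain ⟨⟨⟨⟨⟨h0, h1⟩, h2⟩, h3⟩, h4⟩, h5⟩ := h
  have g0 := Nat.eq_of_beq_eq_true h0
  have hord : ∀ x < X, bA s t x ≤ bB X s a t x ∧ bB X s a t x ≤ bC X s a t x ∧ bC X s a t x ≤ X := by
    intro x hx
    rw [sumBelow_eq, Finset.sum_eq_zero_iff] at g0
    have := g0 x (Finset.mem_range.2 hx)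
    split_ifs at this with hc
    exact ⟨Nat.le_of_ble_eq_true hc.1.1, Nat.le_of_ble_eq_true hc.1.2, Nat.le_of_ble_eq_true hc.2⟩
  refine ⟨color (bA s t) (bB X s a t) (bC X s a t), ?_, ?_⟩
  · intro k
    rw [part_card _ _ _ hord]
    fin_cases k
    · exact Nat.eq_of_beq_eq_true h1
    · exact Nat.eq_of_beq_eq_true h2
    · exact Nat.eq_of_beq_eq_true h3
    · exact Nat.eq_of_beq_eq_true h4
  · exact (cost_le _ _ _ hord).trans (Nat.le_of_ble_eq_true h5)

theorem V_le {X m : ℕ} (h : ∃ c : Mesh X → Fin 4, Balanced c ∧ cost c ≤ m) : V X ≤ m := by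
  obtain ⟨c, h1, h2⟩ := h
  have hmem : cost c ∈ {m | ∃ c : Mesh X → Fin 4, Balanced c ∧ cost c = m} := ⟨c, h1, rfl⟩
  exact (Nat.sInf_le hmem).trans h2

/-- There are perfectly balanced 4-way partitions of the `X × X` mesh of cost at most `221`, `877`,
`3499`, `6995` for `X = 64`, `256`, `1024`, `2048`; hence `V X` is smaller than the conjectured value
for each of these `X`. -/
theorem result :
    ((∃ c : Mesh 64 → Fin 4, Balanced c ∧ cost c ≤ 221) ∧
     (∃ c : Mesh 256 → Fin 4, Balanced c ∧ cost c ≤ 877) ∧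
     (∃ c : Mesh 1024 → Fin 4, Balanced c ∧ cost c ≤ 3499) ∧
     (∃ c : Mesh 2048 → Fin 4, Balanced c ∧ cost c ≤ 6995)) ∧
    (V 64 < 222 ∧ V 256 < 878 ∧ V 1024 < 3500 ∧ V 2048 < 6996) := by
  have h1 : ∃ c : Mesh 64 → Fin 4, Balanced c ∧ cost c ≤ 221 :=
    of_check (s := 44) (t := 34) (a := 9) (by decide +kernel)
  have h2 : ∃ c : Mesh 256 → Fin 4, Balanced c ∧ cost c ≤ 877 :=
    of_check (s := 180) (t := 94) (a := 37) (by decide +kernel)
  have h3 : ∃ c : Mesh 1024 → Fin 4, Balanced c ∧ cost c ≤ 3499 :=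
    of_check (s := 723) (t := 418) (a := 150) (by decide +kernel)
  have h4 : ∃ c : Mesh 2048 → Fin 4, Balanced c ∧ cost c ≤ 6995 :=
    of_check (s := 1447) (t := 948) (a := 300) (by decide +kernel)
  exact ⟨⟨h1, h2, h3, h4⟩, (V_le h1).trans_lt (by norm_num), (V_le h2).trans_lt (by norm_num),
    (V_le h3).trans_lt (by norm_num), (V_le h4).trans_lt (by norm_num)⟩

end Pool.Agent.Results.MP_d1f6bb_co.BetterPartitions
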